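import Pool.Agent.Work.MP_a2bf38_gt.V.Main

/-!
# Diameters of Kähler-Ricci flows with semi-positive limit class

For every solution `ω(t)`, `t ∈ [0,T)`, `T < ∞`, of the Kähler-Ricci flow on a compact connected
complex manifold of any dimension whose limit class `[ω(0)] - 2πT c_1(M)` contains a smooth
semi-positive form `ω(0) + T i ∂ ∂bar log Ω`, the diameter of `ω(t)` is at most
`C √(1 + |log (T - t)|)`.  See `H/Defs.lean` for the flow, the volume form and the diameter.
-/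

open Set Pool.Agent.ToricKRF Pool.Agent.ToricKRF.G Pool.Agent.KRFS Pool.Agent.KRFF

namespace Pool.Agent.Results.MP_a2bf38_gt.LogDiameter

theorem result {n : ℕ} {M : Type} [TopologicalSpace M] [CompactSpace M] [T2Space M]
    [ConnectedSpace M] {κ : Type} {e : κ → OpenPartialHomeomorph M (Cn n)} {T : ℝ}
    {ψ : κ → ℝ × Cn n → ℝ} {Ω : κ → Cn n → ℝ} (ha : IsAtlas e) (hψ : KRFS.IsKRF e T ψ)
    (hΩ : IsVolume e ψ Ω)
    (hpos : ∀ c, ∀ z ∈ (e c).target, ∀ u,
      0 ≤ lev (ψ c) u (0, z) + T * levz (fun z => Real.log (Ω c z)) u z) :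
    ∃ C : ℝ, ∀ t ∈ Ico 0 T, rdiam e ψ t ≤ ENNReal.ofReal (C * √(1 + |Real.log (T - t)|)) :=
  diam_log_of_semipositive ha hψ hΩ hpos

end Pool.Agent.Results.MP_a2bf38_gt.LogDiameter
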