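import Pool.Agent.Work.MP_a2bf38_gt.Fu.Main

/-!
# The diameter of Kähler-Ricci flows with semi-ample limit class

For every solution `ω(t)`, `t ∈ [0,T)`, `T < ∞`, of the Kähler-Ricci flow on a compact complex
manifold `M` whose limit class is the pull-back of a Kähler class of a (possibly singular) space `Z`
under a holomorphic map `f` of `M` onto `Z` with connected fibres, the diameter of `ω(t)` is bounded.
See `T/Defs.lean` for the Kähler spaces, the maps and the limit classes, and `H/Defs.lean` for the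
flow and the diameter.
-/

open Pool.Agent.ToricKRF.G Pool.Agent.KRFS Pool.Agent.KRFT

namespace Pool.Agent.Results.MP_a2bf38_gt.SemiampleLimit

theorem result {M Z : Type} [TopologicalSpace M] [T2Space M] [CompactSpace M] [ConnectedSpace M]
    [TopologicalSpace Z] [T2Space Z] {n N : ℕ} {κ P : Type} {T : ℝ}
    {e : κ → OpenPartialHomeomorph M (Cn n)} {U : P → Set Z} {q : P → Z → Cn N}
    {O : P → Set (Cn N)} {K : P → Cn N → ℝ} {f : M → Z} {ψ : κ → ℝ × Cn n → ℝ}
    {Ω : κ → Cn n → ℝ} (he : IsAtlas e) (hZ : IsKahlerSpace U q O K) (hf : IsHolConn e U q f)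
    (hψ : IsKRF e T ψ) (hlim : IsSemiampleLimit e U q f T ψ Ω K) :
    ⨆ t ∈ Set.Ico 0 T, rdiam e ψ t < ⊤ :=
  diam_bounded he hZ hf hψ hlim

end Pool.Agent.Results.MP_a2bf38_gt.SemiampleLimit
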