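import Pool.Agent.Work.MP_a2bf38_gt.H.Master

/-!
# The diameter of Kähler-Ricci flows on compact complex surfaces

For every solution `ω(t)`, `t ∈ [0,T)`, `T < ∞`, of the Kähler-Ricci flow on a compact complex
surface whose limit class is the pull-back of a Kähler class under its contraction (the blow-down of
disjoint exceptional curves, or a conic bundle over a curve, with nodal singular fibres), the
diameter of `ω(t)` is bounded.  See `H/Surf.lean` for the contractions and `H/Defs.lean` for the
flow and the diameter.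
-/

open Pool.Agent.ToricKRF.G Pool.Agent.KRFS

namespace Pool.Agent.Results.MP_a2bf38_gt.Surfaces

theorem result {M : Type} [TopologicalSpace M] [CompactSpace M] [T2Space M] [ConnectedSpace M]
    {κ P : Type} [Finite P] {e : κ → OpenPartialHomeomorph M (Cn 2)} {pc : κ → P} {ch : κ → Ch}
    {kind : P → Kind} {T : ℝ} {ψ : κ → ℝ × Cn 2 → ℝ} {Ω : κ → Cn 2 → ℝ} {K : P → Cn 2 → ℝ}
    (hc : IsContraction e pc ch kind) (ha : IsAtlas e) (hψ : KRFS.IsKRF e T ψ)
    (hK : IsLimitClass e pc ch T ψ Ω K) :
    ⨆ t ∈ Set.Ico 0 T, rdiam e ψ t < ⊤ :=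
  surface_diam_bounded hc ha hψ hK

end Pool.Agent.Results.MP_a2bf38_gt.Surfaces
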