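import Pool.Agent.Work.MP_a2bf38_gt.G.Final

/-!
# The diameter of Kähler-Ricci flows on compact toric manifolds

For every solution `ω(t)`, `t ∈ [0,T)`, `T < ∞`, of the Kähler-Ricci flow on a compact toric
manifold, with an arbitrary initial Kähler metric (no symmetry, arbitrary Kähler class), the
diameter of `ω(t)` is bounded.  See `G/Defs.lean` for the definitions.
-/

open Pool.Agent.ToricKRF Pool.Agent.ToricKRF.G

namespace Pool.Agent.Results.MP_a2bf38_gt.ToricManifolds

theorem result {n : ℕ} {ι : Type} [Finite ι] (F : SmoothCompleteFan n ι) (T : ℝ)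
    (φ : ℝ × Cn n → ℝ) (h : IsKRF F T φ) :
    ⨆ t ∈ Set.Ico 0 T, diam φ t < ⊤ :=
  toric_diam_bounded F T φ h

end Pool.Agent.Results.MP_a2bf38_gt.ToricManifolds
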